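import Pool.Agent.W792.WA.Stm3
import Pool.Agent.W320.LL.Gz
import Pool.Agent.W883.LL.Rep
import Pool.Agent.W52.LL.Conv
import Pool.Agent.W335.LLCay
import Pool.Agent.W918.LL.Opr
import Pool.Agent.W792.LL.Dia
import Mathlib.MeasureTheory.Measure.Prokhorov

/-!
WA-SPMU: the spectral measure at the origin for an arbitrary (unbounded) potential.
-/

set_option autoImplicit false

open MeasureTheory Filter Topology Pool.Agent.W792.LL Pool.Agent.W792.WA
open scoped ENNReal

namespace Pool.Agent.W759.WA.Spmu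

noncomputable section

/-- Probability measure with a given density. -/
theorem prob_dens (g : ℝ → ℝ) (hg0 : ∀ E, 0 ≤ g E) (hgi : Integrable g) (h1 : ∫ E, g E = 1) :
    IsProbabilityMeasure (volume.withDensity fun E => ENNReal.ofReal (g E)) := by
  constructor
  rw [withDensity_apply _ MeasurableSet.univ, Measure.restrict_univ,
    ← ofReal_integral_eq_lintegral_ofReal hgi (Eventually.of_forall hg0), h1, ENNReal.ofReal_one]

theorem int_dens (g : ℝ → ℝ) (hg0 : ∀ E, 0 ≤ g E) (hgi : Integrable g) (f : ℝ → ℂ) :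
    ∫ E, f E ∂(volume.withDensity fun E => ENNReal.ofReal (g E)) = ∫ E, (g E : ℂ) * f E := by
  rw [integral_withDensity_eq_integral_toReal_smul₀ hgi.aestronglyMeasurable.aemeasurable.ennreal_ofReal
    (Eventually.of_forall fun _ => ENNReal.ofReal_lt_top)]
  refine integral_congr_ae (Eventually.of_forall fun E => ?_)
  simp only [ENNReal.toReal_ofReal (hg0 E), Complex.real_smul]

/-- Subsequential limits of tight densities. -/
theorem exists_limit (g : ℕ → ℝ → ℝ) (C : ℝ) (hg0 : ∀ n E, 0 ≤ g n E)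
    (hgi : ∀ n, Integrable (g n)) (h1 : ∀ n, ∫ E, g n E = 1)
    (ht : ∀ n, ∀ B : ℝ, 1 ≤ B → ∫ E in {E : ℝ | B ≤ |E|}, g n E ≤ C / B) :
    ∃ (φ : ℕ → ℕ) (μ : Measure ℝ), IsFiniteMeasure μ ∧ StrictMono φ ∧
      ∀ f : BoundedContinuousFunction ℝ ℂ,
        Tendsto (fun n => ∫ E, (g (φ n) E : ℂ) * f E) atTop (𝓝 (∫ E, f E ∂μ)) := by
  let ν : ℕ → ProbabilityMeasure ℝ := fun n =>
    ⟨volume.withDensity fun E => ENNReal.ofReal (g n E), prob_dens (g n) (hg0 n) (hgi n) (h1 n)⟩
  have htight : IsTightMeasureSet {((μ : ProbabilityMeasure ℝ) : Measure ℝ) |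
      μ ∈ Set.range ν} := by
    rw [isTightMeasureSet_iff_exists_isCompact_measure_compl_le]
    intro ε hε
    by_cases htop : ε = ⊤
    · refine ⟨∅, isCompact_empty, ?_⟩
      intro μ _
      rw [htop]
      exact le_top
    · have he : 0 < ε.toReal := ENNReal.toReal_pos hε.ne' htop
      obtain ⟨B, hB1, hB2⟩ : ∃ B : ℝ, 1 ≤ B ∧ C / B ≤ ε.toReal := by
        refine ⟨max 1 (C / ε.toReal), le_max_left _ _, ?_⟩
        rw [div_le_iff₀ (lt_of_lt_of_le one_pos (le_max_left _ _))]
        have := le_max_right 1 (C / ε.toReal)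
        rw [div_le_iff₀ he] at this
        linarith
      refine ⟨Set.Icc (-B) B, isCompact_Icc, ?_⟩
      rintro _ ⟨μ, ⟨n, rfl⟩, rfl⟩
      have hm : MeasurableSet {E : ℝ | B ≤ |E|} :=
        (isClosed_le continuous_const continuous_abs).measurableSet
      show (volume.withDensity fun E => ENNReal.ofReal (g n E)) (Set.Icc (-B) B)ᶜ ≤ ε
      refine (measure_mono (t := {E : ℝ | B ≤ |E|}) ?_).trans ?_
      · intro x hx
        by_contra hc
        apply hx
        have : |x| < B := not_le.1 hc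
        exact ⟨(abs_lt.1 this).1.le, (abs_lt.1 this).2.le⟩
      · rw [withDensity_apply _ hm, ← ofReal_integral_eq_lintegral_ofReal (hgi n).integrableOn
          (Eventually.of_forall (hg0 n))]
        exact ENNReal.ofReal_le_of_le_toReal ((ht n B hB1).trans hB2)
  have hcomp := isCompact_closure_of_isTightMeasureSet htight
  obtain ⟨μ, -, φ, hφ, hlim⟩ := hcomp.tendsto_subseq (x := ν)
    (fun i => subset_closure (Set.mem_range_self i))
  refine ⟨φ, μ, inferInstance, hφ, fun f => ?_⟩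
  have h2 := (ProbabilityMeasure.tendsto_iff_forall_integral_rclike_tendsto ℂ).1 hlim f
  refine h2.congr fun n => ?_
  exact int_dens (g (φ n)) (hg0 _) (hgi _) f

/-- The kernel `1 / (E - z)` as a bounded continuous function. -/
def rk (z : ℂ) (hz : 0 < z.im) : BoundedContinuousFunction ℝ ℂ :=
  BoundedContinuousFunction.ofNormedAddCommGroup (fun E : ℝ => 1 / ((E : ℂ) - z))
    (by
      refine continuous_const.div (Complex.continuous_ofReal.sub continuous_const) ?_
      intro E h
      have := congrArg Complex.im h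
      simp at this
      linarith) (1 / z.im) (by
      intro E
      rw [norm_div, norm_one]
      refine one_div_le_one_div_of_le hz ?_
      have := Complex.abs_im_le_norm ((E : ℂ) - z)
      simp only [Complex.sub_im, Complex.ofReal_im, zero_sub, abs_neg] at this
      exact (le_abs_self _).trans this)

theorem main : S_SPMU := by
  have hO : S_OPR := Pool.Agent.W918.LL.main
  have hD : S_DIA := Pool.Agent.W792.LL.DiaP.main
  have hCay : S_CAY := Pool.Agent.W335.LLCay.main
  have hC : S_CON := Pool.Agent.W52.LL.Conv.main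
  have hG : S_GZ := Pool.Agent.W320.LL.main hO hD hCay hC
  have hR : S_REP := Pool.Agent.W883.LL.main hO
  intro d K v
  obtain ⟨G, hGd⟩ : ∃ G : ℂ → ℂ, G = gf K 1 v := ⟨_, rfl⟩
  have hGs : ∀ z : ℂ, 0 < z.im → ∃ w, Sol (hopK K) 1 v z 0 w ∧ w 0 = G z := by
    intro z hz
    obtain ⟨⟨w, hw⟩, h2⟩ := hG d K 1 one_pos v z hz
    exact ⟨w, hw, by rw [h2 w hw, hGd]⟩
  obtain ⟨r1, r2, r3⟩ := hR d K 1 v G hGs
  obtain ⟨η, hη⟩ : ∃ η : ℕ → ℝ, η = fun n : ℕ => 1 / ((n : ℝ) + 1) := ⟨_, rfl⟩
  have hη0 : ∀ n, 0 < η n := by intro n; rw [hη]; positivity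
  have hη1 : ∀ n, η n ≤ 1 := by
    intro n
    rw [hη]
    show 1 / ((n : ℝ) + 1) ≤ 1
    rw [div_le_one (by positivity)]
    have : (0 : ℝ) ≤ n := Nat.cast_nonneg n
    linarith
  have hηt : Tendsto η atTop (𝓝 0) := by
    rw [hη]
    exact tendsto_one_div_add_atTop_nhds_zero_nat
  have hpi := Real.pi_pos
  obtain ⟨g, hg⟩ : ∃ g : ℕ → ℝ → ℝ,
      g = fun (n : ℕ) (E : ℝ) => (1 / Real.pi) * (G ((E : ℂ) + η n * Complex.I)).im := ⟨_, rfl⟩
  have hgn : ∀ n E, g n E = (1 / Real.pi) * (G ((E : ℂ) + η n * Complex.I)).im := by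
    intro n E; rw [hg]
  have him : ∀ n (E : ℝ), 0 < ((E : ℂ) + η n * Complex.I).im := by
    intro n E
    simp
    exact hη0 n
  obtain ⟨φ, μ, hμ, hφ, hlim⟩ := exists_limit g (2 * (1 + ‖K‖ + |1 * v 0|))
    (by
      intro n E
      rw [hgn]
      exact mul_nonneg (by positivity) (r1 _ (him n E)).1)
    (by
      intro n
      have := ((r3 (η n) (hη0 n) (hη1 n)).1).const_mul (1 / Real.pi)
      rw [hg]
      exact this)
    (by
      intro n
      simp only [hgn]
      rw [integral_const_mul, (r3 (η n) (hη0 n) (hη1 n)).2.1]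
      field_simp)
    (by
      intro n B hB
      simp only [hgn]
      rw [integral_const_mul]
      have := (r3 (η n) (hη0 n) (hη1 n)).2.2.2 B hB
      have hB0 : 0 < B := by linarith
      calc 1 / Real.pi * ∫ E in {E : ℝ | B ≤ |E|}, (G ((E : ℂ) + η n * Complex.I)).im
          ≤ 1 / Real.pi * (2 * Real.pi * (1 + ‖K‖ + |1 * v 0|) / B) :=
            mul_le_mul_of_nonneg_left this (by positivity)
        _ = 2 * (1 + ‖K‖ + |1 * v 0|) / B := by field_simp)
  refine ⟨μ, hμ, fun z hz => ⟨(hG d K 1 one_pos v z hz).1, fun w hw => ?_⟩⟩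
  rw [(hG d K 1 one_pos v z hz).2 w hw, ← hGd]
  have l1 := hlim (rk z hz)
  have l2 : Tendsto (fun n => G (z + η (φ n) * Complex.I)) atTop (𝓝 (G z)) := by
    rw [tendsto_iff_norm_sub_tendsto_zero]
    have l3 : Tendsto (fun n => η (φ n) / (z.im * z.im)) atTop (𝓝 (0 / (z.im * z.im))) :=
      (hηt.comp hφ.tendsto_atTop).div_const _
    rw [zero_div] at l3
    refine squeeze_zero (fun _ => norm_nonneg _) (fun n => ?_) l3
    have hz' : z.im ≤ (z + η (φ n) * Complex.I).im := by
      simp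
      exact (hη0 _).le
    refine (r2 _ z (lt_of_lt_of_le hz hz') hz).trans ?_
    have e1 : ‖z + η (φ n) * Complex.I - z‖ = η (φ n) := by
      rw [add_sub_cancel_left, norm_mul, Complex.norm_I, mul_one, Complex.norm_real,
        Real.norm_eq_abs, abs_of_pos (hη0 _)]
    rw [e1]
    exact div_le_div_of_nonneg_left (hη0 _).le (by positivity)
      (mul_le_mul_of_nonneg_right hz' hz.le)
  have l4 : (fun n => ∫ E, (g (φ n) E : ℂ) * (rk z hz) E) =
      fun n => G (z + η (φ n) * Complex.I) := by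
    funext n
    rw [(r3 (η (φ n)) (hη0 _) (hη1 _)).2.2.1 z hz, ← integral_const_mul]
    refine integral_congr_ae (Eventually.of_forall fun E => ?_)
    show (g (φ n) E : ℂ) * (1 / ((E : ℂ) - z)) = _
    rw [hgn]
    push_cast
    ring
  rw [l4] at l1
  exact tendsto_nhds_unique l2 l1

end

end Pool.Agent.W759.WA.Spmu
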